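import Pool.Agent.Helper51.REC.Goals2

/-!
Packet REC-G_ELL (MP_fc6b1e_nt).
-/

set_option autoImplicit false

namespace Pool.Agent.Helper56.REC

open NumberField Module IsDedekindDomain Pool.Agent.Helper51.RP Pool.Agent.Helper42.PP
open Pool.Agent.Helper51.REC

theorem val_nat {F : Type} [Field F] [NumberField F] (W : HeightOneSpectrum (𝓞 F)) (l : ℕ) :
    W.valuation F (l : F) = W.intValuation (l : 𝓞 F) := by
  have h : algebraMap (𝓞 F) F (l : 𝓞 F) = (l : F) := map_natCast _ _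
  rw [← h, HeightOneSpectrum.valuation_of_algebraMap]

theorem mem_of_val {F : Type} [Field F] [NumberField F] {W : HeightOneSpectrum (𝓞 F)} {l : ℕ}
    (h : W.valuation F (l : F) < 1) : (l : 𝓞 F) ∈ W.asIdeal := by
  rw [val_nat] at h
  exact (W.intValuation_lt_one_iff_mem _).1 h

theorem sq_dvd {F : Type} [Field F] [NumberField F] {W : HeightOneSpectrum (𝓞 F)} {l : ℕ}
    (hl : l ≠ 0) (h : W.valuation F (l : F) < 1) (ho : ordv W (l : F) ≠ 1) :
    W.asIdeal ^ 2 ∣ Ideal.span {(l : 𝓞 F)} := by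
  have hlF : (l : F) ≠ 0 := by exact_mod_cast hl
  have hv : W.valuation F (l : F) ≠ 0 := (Valuation.ne_zero_iff _).2 hlF
  have h1 : WithZero.log (W.valuation F (l : F)) < 0 := by
    rw [WithZero.log_lt_iff_lt_exp hv, WithZero.exp_zero]
    exact h
  have h2 : WithZero.log (W.valuation F (l : F)) ≠ -1 := by
    intro e
    apply ho
    unfold ordv
    rw [e]
    norm_num
  have h3 : WithZero.log (W.valuation F (l : F)) ≤ -((2 : ℕ) : ℤ) := by
    push_cast
    omega
  have h4 : W.valuation F (l : F) ≤ WithZero.exp (-((2 : ℕ) : ℤ)) := by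
    rw [← WithZero.exp_log hv, WithZero.exp_le_exp]
    exact h3
  rw [val_nat] at h4
  exact (W.intValuation_le_pow_iff_dvd _ 2).1 h4

theorem dvd_diff {F : Type} [Field F] [NumberField F] {W : HeightOneSpectrum (𝓞 F)} {l : ℕ}
    (hl : l.Prime) (h : W.asIdeal ^ 2 ∣ Ideal.span {(l : 𝓞 F)}) :
    W.asIdeal ∣ differentIdeal ℤ (𝓞 F) := by
  have hF : Fact l.Prime := ⟨hl⟩
  have hmax : (Ideal.span {(l : ℤ)}).IsMaximal := Int.ideal_span_isMaximal_of_prime l
  have hne : Ideal.span {(l : ℤ)} ≠ ⊥ := by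
    rw [Ne, Ideal.span_singleton_eq_bot]
    exact_mod_cast hl.ne_zero
  have hmap : (Ideal.span {(l : ℤ)}).map (algebraMap ℤ (𝓞 F)) = Ideal.span {(l : 𝓞 F)} := by
    rw [Ideal.map_span, Set.image_singleton]
    simp
  have := pow_sub_one_dvd_differentIdeal (A := ℤ) (B := 𝓞 F) (p := Ideal.span {(l : ℤ)})
    W.asIdeal 2 hne (by rw [hmap]; exact h)
  simpa using this

theorem g_ell : Pool.Agent.Helper51.REC.G_ELL := by
  intro p _ F _ _
  constructor
  · refine (Nat.infinite_setOfPred_prime_modEq_one (Fact.out (p := p.Prime)).ne_zero).mono ?_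
    rintro l ⟨h1, h2⟩
    exact ⟨h1, (Nat.modEq_iff_dvd' h1.one_lt.le).1 h2.symm⟩
  · have hD : differentIdeal ℤ (𝓞 F) ≠ 0 := differentIdeal_ne_bot
    have hfin := Ideal.finite_factors hD
    refine (hfin.biUnion (t := fun W => {l : ℕ | l.Prime ∧ W.valuation F (l : F) < 1}) ?_).subset ?_
    · intro W _
      apply Set.Subsingleton.finite
      rintro a ⟨ha, hva⟩ b ⟨hb, hvb⟩
      by_contra hab
      have hco : IsCoprime (a : ℤ) (b : ℤ) :=
        Nat.isCoprime_iff_coprime.2 ((Nat.coprime_primes ha hb).2 hab)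
      obtain ⟨u, v, huv⟩ := hco
      have h1 : (1 : 𝓞 F) ∈ W.asIdeal := by
        have e : (1 : 𝓞 F) = (u : 𝓞 F) * (a : 𝓞 F) + (v : 𝓞 F) * (b : 𝓞 F) := by
          have := congrArg (fun z : ℤ => (z : 𝓞 F)) huv
          push_cast at this
          exact this.symm
        rw [e]
        exact W.asIdeal.add_mem (W.asIdeal.mul_mem_left _ (mem_of_val hva))
          (W.asIdeal.mul_mem_left _ (mem_of_val hvb))
      exact W.isPrime.ne_top ((Ideal.eq_top_iff_one _).2 h1)
    · rintro l ⟨hl, W, hW, ho⟩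
      rw [Set.mem_iUnion₂]
      exact ⟨W, dvd_diff hl (sq_dvd hl.ne_zero hW ho), hl, hW⟩

end Pool.Agent.Helper56.REC
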